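import Mathlib

/-!
Definitions used in the statement: programs with local layers, maps of full rank, and the explicit
sets of points.
-/

namespace Pool.Agent.Helper5.SmoothComp

open Matrix MvPolynomial

/-- `f` is computed by an algebraic branching program over `ℚ` of width `w` in `p` variables with
local layers: `f = uᵀ * M₀ * ⋯ * M_{N-1} * v`, where the entries of the `w × w` matrix `M_l` are
arbitrary polynomials in the variables `y_i`, `i ∈ B_l`, every set `B_l` has at most `s` elements,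
and every variable lies in at most `k` of the sets `B_l`. -/
def Prog (w k s p : ℕ) (f : MvPolynomial (Fin p) ℚ) : Prop :=
  ∃ (N : ℕ) (B : Fin N → Finset (Fin p))
    (M : Fin N → Matrix (Fin w) (Fin w) (MvPolynomial (Fin p) ℚ)) (u v : Fin w → ℚ),
    (∀ l, (B l).card ≤ s) ∧
    (∀ i : Fin p, (Finset.univ.filter fun l : Fin N => i ∈ B l).card ≤ k) ∧
    (∀ l a b, (M l a b).vars ⊆ B l) ∧
    f = (fun a => C (u a)) ⬝ᵥ ((List.ofFn M).prod *ᵥ fun b => C (v b))

/-- The Jacobian matrix of the polynomial map `ψ = (ψ_1, …, ψ_p)` has rank `p` at the point `x`. -/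
def FullRank {p n : ℕ} (ψ : Fin p → MvPolynomial (Fin n) ℚ) (x : Fin n → ℚ) : Prop :=
  LinearIndependent ℚ fun (i : Fin p) (j : Fin n) => eval x (pderiv j (ψ i))

/-- `F = f₀(ψ_1, …, ψ_p)`, where `f₀` is computed by a program of width `w` with `s`-local layers
reading every variable in at most `k` layers, and the Jacobian matrix of the polynomial map `ψ` has
rank `p` at some point `Γ(t)` of the given family of points. -/
def Composite (w k s : ℕ) {n m : ℕ} (Γ : Fin n → MvPolynomial (Fin m) ℚ)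
    (F : MvPolynomial (Fin n) ℚ) : Prop :=
  ∃ (p : ℕ) (f₀ : MvPolynomial (Fin p) ℚ) (ψ : Fin p → MvPolynomial (Fin n) ℚ),
    Prog w k s p f₀ ∧ (∃ t : Fin m → ℚ, FullRank ψ fun i => eval t (Γ i)) ∧ F = aeval ψ f₀

/-- The explicit set of points `(∑_{l<c} z_l ∏_{j ≠ i} (y_l - j))_{i<n}` with integers
`0 ≤ z_l ≤ D` and `0 ≤ y_l ≤ n * D`. -/
def points (n c D : ℕ) : Finset (Fin n → ℚ) :=
  ((Fintype.piFinset fun _ : Fin c => Finset.range (D + 1)) ×ˢ
    (Fintype.piFinset fun _ : Fin c => Finset.range (n * D + 1))).image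
    fun p i => ∑ l : Fin c, (p.1 l : ℚ) * ∏ j ∈ Finset.univ.erase i, ((p.2 l : ℚ) - (j.val : ℚ))

/-- The points `Γ(t) + a` with `a ∈ points n c D` and integers `0 ≤ t_1, …, t_m ≤ e * D`. -/
noncomputable def shiftedPoints {n m : ℕ} (Γ : Fin n → MvPolynomial (Fin m) ℚ) (e c D : ℕ) :
    Finset (Fin n → ℚ) :=
  ((Fintype.piFinset fun _ : Fin m => Finset.range (e * D + 1)) ×ˢ points n c D).image
    fun q i => eval (fun j => (q.1 j : ℚ)) (Γ i) + q.2 i

/-- Auxiliary number in the exponent. -/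
def kap (w k s : ℕ) : ℕ :=
  (k * s + 1) *
    ((2 * (2 ^ k * w ^ 2 + 1) ^ (2 ^ k * w) + 1) ^ (2 ^ k * w + 1) + 1) ^ 2 ^ 2 ^ k + 2 * s

/-- The number of summands of the points. -/
def exponent (w k s : ℕ) : ℕ :=
  s * (k * kap w k s) + (w + 1) * (w ^ 2) ^ (w * (k * kap w k s))

end Pool.Agent.Helper5.SmoothComp
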