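import Pool.Agent.Helper5.Orb.Main
import Pool.Agent.Helper5.Orb.Defs

/-!
The final theorem for programs composed with maps of full rank.
-/

namespace Pool.Agent.Helper5.Orb

open Matrix MvPolynomial Pool.Agent.Helper8 Module Pool.Agent.Helper5 SmoothComp

theorem kap_eq (w k s : ℕ) : kap w k s = Loc.kapL w k s := by
  unfold kap Loc.kapL Loc.kapq Loc.kapW
  rw [sq]

theorem exponent_eq (w k s : ℕ) : exponent w k s = s * (k * Loc.kapL w k s) +
    (w + 1) * (w * w) ^ (w * (k * Loc.kapL w k s)) := by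
  unfold exponent
  rw [kap_eq, sq]

/-- from rational seeds to the grid -/
theorem grid_shift {n m : ℕ} (Γ : Fin n → MvPolynomial (Fin m) ℚ) (e c D : ℕ)
    (hΓ : ∀ i, (Γ i).totalDegree ≤ e) (f : MvPolynomial (Fin n) ℚ) (hD : f.totalDegree ≤ D)
    (x : Fin n → ℚ) (hx : x ∈ XX Γ c) (hf : eval x f ≠ 0) :
    ∃ a ∈ shiftedPoints Γ e c D, eval a f ≠ 0 := by
  classical
  obtain ⟨s, t, rfl⟩ := hx
  -- the shifts
  set F : MvPolynomial (Fin m) ℚ := aeval (fun i => Γ i + C (gen n c t i)) f with hF
  have hFev : ∀ s', eval s' F = eval (fun i => eval s' (Γ i) + gen n c t i) f := by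
    intro s'
    rw [hF, aeval_def, ← coe_eval₂Hom, ← RingHom.comp_apply]
    congr 1
    apply MvPolynomial.ringHom_ext
    · intro r; simp
    · intro i; simp
  have hs : ∃ s' ∈ Fintype.piFinset (fun _ : Fin m => Finset.range (e * D + 1)),
      eval (fun j => (s' j : ℚ)) F ≠ 0 := by
    by_contra hcon
    push Not at hcon
    have hF0 : F = 0 := by
      apply MvPolynomial.eq_zero_of_eval_zero_at_prod_finset F
        (fun _ => (Finset.range (e * D + 1)).image (fun r : ℕ => (r : ℚ)))
      · intro j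
        rw [Finset.card_image_of_injective _ Nat.cast_injective, Finset.card_range]
        have h1 := degreeOf_aeval_le (fun i => Γ i + C (gen n c t i)) j e (fun i => by
          refine (degreeOf_add_le _ _ _).trans (max_le ?_ ?_)
          · exact (degreeOf_le_totalDegree _ _).trans (hΓ i)
          · rw [degreeOf_C]; exact Nat.zero_le _) f
        rw [← hF] at h1
        have h2 : f.totalDegree * e ≤ e * D := by
          rw [mul_comm]; exact Nat.mul_le_mul_left _ hD
        omega
      · intro x hx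
        have h1 : ∀ l : Fin m, ∃ r ∈ Finset.range (e * D + 1), (r : ℚ) = x l := by
          intro l
          have := hx l
          simpa using this
        choose z hz1 hz2 using h1
        have h2 := hcon z (Fintype.mem_piFinset.mpr hz1)
        have h3 : (fun j => (z j : ℚ)) = x := funext hz2
        rwa [h3] at h2
    apply hf
    rw [← hFev, hF0, map_zero]
  obtain ⟨s', hs', hne⟩ := hs
  rw [hFev] at hne
  -- the seeds of the generator
  set a0 : Fin n → ℚ := fun i => eval (fun j => (s' j : ℚ)) (Γ i) with ha0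
  set f' : MvPolynomial (Fin n) ℚ := aeval (fun i => X i + C (a0 i)) f with hf'
  have hf'ev : ∀ x, eval x f' = eval (fun i => a0 i + x i) f := by
    intro x
    rw [hf', aeval_def, ← coe_eval₂Hom, ← RingHom.comp_apply]
    congr 1
    apply MvPolynomial.ringHom_ext
    · intro r; simp
    · intro i; simp [add_comm]
  have hdeg : f'.totalDegree ≤ D := by
    refine le_trans ?_ hD
    rw [hf', aeval_def, eval₂_eq]
    apply totalDegree_finsetSum_le
    intro q hq
    refine (totalDegree_mul _ _).trans ?_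
    rw [algebraMap_eq, totalDegree_C, zero_add]
    refine (totalDegree_finsetProd _ _).trans ?_
    refine le_trans ?_ (le_totalDegree hq)
    rw [Finsupp.sum]
    apply Finset.sum_le_sum
    intro i _
    refine (totalDegree_pow _ _).trans ?_
    have : (X i + C (a0 i) : MvPolynomial (Fin n) ℚ).totalDegree ≤ 1 := by
      refine (totalDegree_add _ _).trans (max_le ?_ ?_)
      · rw [totalDegree_X]
      · rw [totalDegree_C]; exact Nat.zero_le _
    calc q i * (X i + C (a0 i) : MvPolynomial (Fin n) ℚ).totalDegree ≤ q i * 1 :=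
          Nat.mul_le_mul_left _ this
      _ = q i := mul_one _
  obtain ⟨b, hb, hbne⟩ := hit_grid f' D hdeg c ⟨t, by rw [hf'ev]; exact hne⟩
  rw [hf'ev] at hbne
  refine ⟨fun i => a0 i + b i, ?_, hbne⟩
  unfold shiftedPoints
  rw [Finset.mem_image]
  exact ⟨(s', b), Finset.mem_product.mpr ⟨hs', hb⟩, rfl⟩

theorem card_points (n c D : ℕ) : (points n c D).card ≤ ((D + 1) * (n * D + 1)) ^ c :=
  card_hittingSet n c D

theorem card_shifted {n m : ℕ} (Γ : Fin n → MvPolynomial (Fin m) ℚ) (e c D : ℕ) :
    (shiftedPoints Γ e c D).card ≤ (e * D + 1) ^ m * ((D + 1) * (n * D + 1)) ^ c := by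
  classical
  unfold shiftedPoints
  refine Finset.card_image_le.trans ?_
  rw [Finset.card_product, Fintype.card_piFinset]
  refine Nat.mul_le_mul (le_of_eq ?_) (card_points n c D)
  simp

theorem hit_point (w k s n m : ℕ) (Γ : Fin n → MvPolynomial (Fin m) ℚ)
    (F : MvPolynomial (Fin n) ℚ) (hF : Composite w k s Γ F) (hne : F ≠ 0) :
    ∃ x ∈ XX Γ (exponent w k s), eval x F ≠ 0 := by
  classical
  obtain ⟨p, f₀, ψ, hf₀, ⟨t, ht⟩, rfl⟩ := hF
  obtain ⟨N, B, M, u, v, hs, hk, hd, rfl⟩ := hf₀
  rw [exponent_eq]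
  have hmain := hit_comp (Loc.extM M) N k s (Loc.extB B) (by
    intro l i j
    by_cases hl : l < N
    · simp only [Loc.extM, Loc.extB, hl, dif_pos]
      exact hd ⟨l, hl⟩ i j
    · simp only [Loc.extM, hl, dif_neg, not_false_eq_true, Matrix.one_apply]
      split_ifs <;> simp) (by
    intro l
    by_cases hl : l < N
    · simp only [Loc.extB, hl, dif_pos]; exact hs _
    · simp [Loc.extB, hl]) (by
    intro i
    refine le_trans ?_ (hk i)
    have : ((Finset.range N).filter fun l => i ∈ Loc.extB B l) =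
        ((Finset.univ.filter fun l : Fin N => i ∈ B l).map Fin.valEmbedding) := by
      ext l
      simp only [Finset.mem_filter, Finset.mem_range, Finset.mem_map, Finset.mem_univ,
        true_and, Fin.valEmbedding_apply]
      constructor
      · rintro ⟨h1, h2⟩
        refine ⟨⟨l, h1⟩, ?_, rfl⟩
        simpa [Loc.extB, h1] using h2
      · rintro ⟨l', h1, rfl⟩
        refine ⟨l'.2, ?_⟩
        simpa [Loc.extB] using h1
    rw [this, Finset.card_map]) Γ ψ t ht u v (by
    by_contra hcon
    push Not at hcon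
    apply hne
    have h0 : ((fun a => C (u a)) ⬝ᵥ ((List.ofFn M).prod *ᵥ fun b => C (v b)) :
        MvPolynomial (Fin p) ℚ) = 0 := by
      apply MvPolynomial.funext
      intro x
      rw [Loc.eval_prog M u v x, hcon x]; simp
    rw [h0, map_zero])
  obtain ⟨x, hx, hxne⟩ := hmain
  refine ⟨x, hx, ?_⟩
  rw [eval_aeval_comp, Loc.eval_prog M u v]
  exact hxne

/-- **Final theorem.** -/
theorem hit_final (w k s n m e D : ℕ) (Γ : Fin n → MvPolynomial (Fin m) ℚ)
    (hΓ : ∀ i, (Γ i).totalDegree ≤ e) (r : ℕ) (F : Fin r → MvPolynomial (Fin n) ℚ)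
    (hF : ∀ j, Composite w k s Γ (F j)) (hne : ∀ j, F j ≠ 0) (f : MvPolynomial (Fin n) ℚ)
    (hf : f ∣ ∏ j, F j) (hD : f.totalDegree ≤ D) :
    ∃ a ∈ shiftedPoints Γ e (exponent w k s) D, eval a f ≠ 0 := by
  classical
  obtain ⟨x, hx, hall⟩ := XX_common (Γ := Γ) (exponent w k s) (Finset.univ.image F) (by
    intro F' hF'
    rw [Finset.mem_image] at hF'
    obtain ⟨j, _, rfl⟩ := hF'
    exact hit_point w k s n m Γ (F j) (hF j) (hne j))
  apply grid_shift Γ e _ D hΓ f hD x hx
  obtain ⟨q, hq⟩ := hf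
  intro h0
  have h1 : eval x (∏ j, F j) = 0 := by rw [hq, map_mul, h0, zero_mul]
  rw [map_prod, Finset.prod_eq_zero_iff] at h1
  obtain ⟨j, _, hj⟩ := h1
  exact hall (F j) (Finset.mem_image_of_mem _ (Finset.mem_univ j)) hj

end Pool.Agent.Helper5.Orb
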