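import Pool.Agent.Helper5.Orb.Step

/-!
Assembly: programs composed with maps of full rank.
-/

namespace Pool.Agent.Helper5.Orb

open Matrix MvPolynomial Pool.Agent.Helper8 Module Pool.Agent.Helper5

section Family

variable {n m : ℕ} (Γ : Fin m → MvPolynomial (Fin n) ℚ)

/-- the points `Γ(s) + gen(t)` -/
def XX (Γ : Fin n → MvPolynomial (Fin m) ℚ) (c : ℕ) : Set (Fin n → ℚ) :=
  {x | ∃ (s : Fin m → ℚ) (t : Fin c ⊕ Fin c → ℚ), x = fun i => eval s (Γ i) + gen n c t i}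

variable {Γ : Fin n → MvPolynomial (Fin m) ℚ}

theorem XX_step {c κ : ℕ} {g : Fin n → ℚ} (hg : g ∈ XX Γ c) (x' : Fin n → ℚ)
    (S : Finset (Fin n)) (hS : S.card ≤ κ) (hx : ∀ i, i ∉ S → x' i = g i) :
    x' ∈ XX Γ (c + κ) := by
  obtain ⟨s, t, rfl⟩ := hg
  have h1 : (fun i => x' i - eval s (Γ i)) ∈ G n (c + κ) :=
    G_step (g := gen n c t) ⟨t, rfl⟩ _ S hS (fun i hi => by simp only [hx i hi]; ring)
  obtain ⟨t', ht'⟩ := h1
  refine ⟨s, t', ?_⟩
  funext i
  have h2 := congrFun ht' i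
  rw [h2]; ring

theorem XX_mono {c c' : ℕ} (h : c ≤ c') : XX Γ c ⊆ XX Γ c' := by
  obtain ⟨κ, rfl⟩ := Nat.exists_eq_add_of_le h
  intro g hg
  exact XX_step hg g ∅ (by simp) fun _ _ => rfl

theorem XX_common (c : ℕ) (Ps : Finset (MvPolynomial (Fin n) ℚ))
    (h : ∀ F ∈ Ps, ∃ x ∈ XX Γ c, eval x F ≠ 0) : ∃ x ∈ XX Γ c, ∀ F ∈ Ps, eval x F ≠ 0 := by
  classical
  set Φ : Fin n → MvPolynomial (Fin m ⊕ (Fin c ⊕ Fin c)) ℚ := fun i =>
    rename Sum.inl (Γ i) + rename Sum.inr (genPoly n c i) with hΦ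
  have hev : ∀ (r : Fin m ⊕ (Fin c ⊕ Fin c) → ℚ) (F : MvPolynomial (Fin n) ℚ),
      eval r (aeval Φ F) = eval (fun i => eval (fun a => r (Sum.inl a)) (Γ i) +
        gen n c (fun a => r (Sum.inr a)) i) F := by
    intro r F
    rw [aeval_def, ← coe_eval₂Hom, ← RingHom.comp_apply]
    congr 1
    apply MvPolynomial.ringHom_ext
    · intro a; simp
    · intro i
      simp only [hΦ, RingHom.comp_apply, coe_eval₂Hom, eval₂_X, map_add, eval_rename, eval_X]
      rw [← eval_genPoly]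
      rfl
  obtain ⟨r, hr⟩ := Loc.exists_common_poly Ps (fun F => aeval Φ F) (by
    intro F hF
    obtain ⟨x, ⟨s, t, rfl⟩, hx⟩ := h F hF
    refine ⟨Sum.elim s t, ?_⟩
    rw [hev]
    exact hx)
  refine ⟨_, ⟨fun a => r (Sum.inl a), fun a => r (Sum.inr a), rfl⟩, fun F hF => ?_⟩
  have := hr F hF
  rwa [hev] at this

end Family

theorem eval_aeval_comp {n : ℕ} {β : Type*} (ψ : β → MvPolynomial (Fin n) ℚ) (x : Fin n → ℚ)
    (q : MvPolynomial β ℚ) : eval x (aeval ψ q) = eval (fun b => eval x (ψ b)) q := by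
  rw [aeval_def, ← coe_eval₂Hom, ← RingHom.comp_apply]
  congr 1
  apply MvPolynomial.ringHom_ext
  · intro c; simp
  · intro j; simp

variable {w p n m : ℕ}

/-- **Main theorem**: programs composed with a map of full rank. -/
theorem hit_comp (M : ℕ → Matrix (Fin w) (Fin w) (MvPolynomial (Fin p) ℚ)) (N k s : ℕ)
    (B : ℕ → Finset (Fin p)) (hB : ∀ l i j, (M l i j).vars ⊆ B l) (hs : ∀ l, (B l).card ≤ s)
    (hk : ∀ i, ((Finset.range N).filter fun l => i ∈ B l).card ≤ k)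
    (Γ : Fin n → MvPolynomial (Fin m) ℚ) (ψ : Fin p → MvPolynomial (Fin n) ℚ) (s₀ : Fin m → ℚ)
    (hJ : LinearIndependent ℚ (fun i : Fin p => fun j : Fin n =>
      eval (fun l => eval s₀ (Γ l)) (pderiv j (ψ i))))
    (u v : Fin w → ℚ) (hf : ∃ y, u ⬝ᵥ (Loc.P M y 0 N *ᵥ v) ≠ 0) :
    ∃ x ∈ XX Γ (s * (k * Loc.kapL w k s) +
      (w + 1) * (w * w) ^ (w * (k * Loc.kapL w k s))),
      u ⬝ᵥ (Loc.P M (fun i => eval x (ψ i)) 0 N *ᵥ v) ≠ 0 := by
  classical
  set κ := Loc.kapL w k s with hκ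
  set D1 := (w * w) ^ (w * (k * κ)) with hD1
  set μ := s * (k * κ) with hμ
  have hw : 0 < w := by
    rcases Nat.eq_zero_or_pos w with h | h
    · subst h
      obtain ⟨y, hy⟩ := hf
      exact absurd (by simp [dotProduct]) hy
    · exact h
  -- the base point
  set x0 : Fin n → ℚ := fun l => eval s₀ (Γ l) with hx0
  have hx0X : x0 ∈ XX Γ 0 := ⟨s₀, fun _ => 0, by funext i; simp [hx0, gen]⟩
  -- the condition on the Jacobian
  obtain ⟨T0, A0, _, hA0, hinv0⟩ := exists_right_inverse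
    (fun i : Fin p => fun j => eval x0 (pderiv j (ψ i))) hJ
  set FJ : MvPolynomial (Fin n) ℚ :=
    (Matrix.of fun i i' : Fin p => ∑ j, pderiv j (ψ i) * C (A0 j i')).det with hFJ
  have hFJev : ∀ x, eval x FJ =
      (Matrix.of fun i i' : Fin p => ∑ j, eval x (pderiv j (ψ i)) * A0 j i').det := by
    intro x
    rw [hFJ, RingHom.map_det]
    congr 1
    ext i i'
    simp
  have hFJ0 : eval x0 FJ ≠ 0 := by
    rw [hFJev]
    have : (Matrix.of fun i i' : Fin p => ∑ j, eval x0 (pderiv j (ψ i)) * A0 j i') =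
        (1 : Matrix (Fin p) (Fin p) ℚ) := by
      ext i i'
      rw [Matrix.of_apply, hinv0, Matrix.one_apply]
    rw [this, Matrix.det_one]
    exact one_ne_zero
  have hFJinv : ∀ x, eval x FJ ≠ 0 → ∃ A' : Fin n → Fin p → ℚ,
      ∀ i i', ∑ j, eval x (pderiv j (ψ i)) * A' j i' = if i = i' then 1 else 0 := by
    intro x hx
    rw [hFJev] at hx
    set P : Matrix (Fin p) (Fin p) ℚ :=
      Matrix.of fun i i' : Fin p => ∑ j, eval x (pderiv j (ψ i)) * A0 j i' with hP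
    have hPinv : P * P⁻¹ = 1 := Matrix.mul_nonsing_inv P (isUnit_iff_ne_zero.mpr hx)
    refine ⟨fun j i' => ∑ i'', A0 j i'' * P⁻¹ i'' i', fun i i' => ?_⟩
    have h1 := congrFun (congrFun hPinv i) i'
    rw [Matrix.mul_apply, Matrix.one_apply] at h1
    rw [← h1]
    simp only [hP, Matrix.of_apply, Finset.mul_sum, Finset.sum_mul]
    rw [Finset.sum_comm]
    refine Finset.sum_congr rfl fun i'' _ => Finset.sum_congr rfl fun j _ => ?_
    ring
  -- the conditions on the layers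
  choose q hq0 hq using exists_cond M B hB
  set cond : (R : ℕ) → (T : Finset ℕ) → Finset (Fin p) → MvPolynomial (Fin n) ℚ :=
    fun R T S => aeval (fun b : (T.biUnion B : Finset (Fin p)) => ψ b.1) (q R T S) with hcond
  set idx : Finset (ℕ × Finset ℕ × Finset (Fin p)) :=
    (Finset.range (w + 1)) ×ˢ ((Finset.range N).powerset.filter fun T => T.card ≤ k * κ) ×ˢ
      Finset.univ with hidx
  set Cs : Finset (MvPolynomial (Fin n) ℚ) :=
    insert FJ (idx.image fun r => cond r.1 r.2.1 r.2.2) with hCs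
  have hCspt : ∀ F ∈ Cs, ∃ x ∈ XX Γ μ, eval x F ≠ 0 := by
    intro F hF
    rw [hCs, Finset.mem_insert, Finset.mem_image] at hF
    rcases hF with rfl | ⟨⟨R, T, S⟩, hr, rfl⟩
    · exact ⟨x0, XX_mono (Nat.zero_le μ) hx0X, hFJ0⟩
    · rw [hidx, Finset.mem_product, Finset.mem_product, Finset.mem_filter] at hr
      obtain ⟨x, T', hT', hx, hne⟩ := exists_near_comp ψ x0 hJ (T.biUnion B) (q R T S) (hq0 R T S)
      have hcardB : (T.biUnion B).card ≤ μ := by
        calc (T.biUnion B).card ≤ ∑ l ∈ T, (B l).card := Finset.card_biUnion_le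
          _ ≤ ∑ _l ∈ T, s := Finset.sum_le_sum fun l _ => hs l
          _ = T.card * s := by rw [Finset.sum_const, smul_eq_mul]
          _ ≤ (k * κ) * s := Nat.mul_le_mul_right _ hr.2.1.2
          _ = μ := by rw [hμ, mul_comm]
      refine ⟨x, ?_, ?_⟩
      · have := XX_step hx0X x T' (hT'.trans hcardB) hx
        rwa [zero_add] at this
      · simp only [hcond]
        rw [eval_aeval_comp]
        exact hne
  -- the family in `y`-space
  set G' : ℕ → Set (Fin p → ℚ) := fun c =>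
    {y | ∃ x ∈ XX Γ (μ + c), (∀ F ∈ Cs, eval x F ≠ 0) ∧ y = fun i => eval x (ψ i)} with hG'
  have hcommon' : ∀ c (Ps : Finset (MvPolynomial (Fin n) ℚ)),
      (∀ F ∈ Ps, ∃ x ∈ XX Γ (μ + c), eval x F ≠ 0) →
      ∃ x ∈ XX Γ (μ + c), (∀ F ∈ Cs, eval x F ≠ 0) ∧ ∀ F ∈ Ps, eval x F ≠ 0 := by
    intro c Ps hPs
    obtain ⟨x, hx, hall⟩ := XX_common (Γ := Γ) (μ + c) (Cs ∪ Ps) (by
      intro F hF
      rw [Finset.mem_union] at hF
      rcases hF with hF | hF
      · obtain ⟨x, hx, hne⟩ := hCspt F hF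
        exact ⟨x, XX_mono (Nat.le_add_right μ c) hx, hne⟩
      · exact hPs F hF)
    exact ⟨x, hx, fun F hF => hall F (Finset.mem_union_left _ hF),
      fun F hF => hall F (Finset.mem_union_right _ hF)⟩
  have hgood : ∀ x, (∀ F ∈ Cs, eval x F ≠ 0) →
      ∀ R ≤ w, ∀ T ⊆ Finset.range N, T.card ≤ k * κ → ∀ S : Finset (Fin p),
      ∀ f ∈ E M (Prod.snd : Fin R × ℕ → ℕ) (Finset.univ ×ˢ T),
        Van (S : Set (Fin p)) (fun i => eval x (ψ i)) ((w * w) ^ (R * T.card)) f →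
        ∀ e, Van (S : Set (Fin p)) (fun i => eval x (ψ i)) e f := by
    intro x hx R hR T hT hTc S
    apply hq R T S
    have h1 := hx (cond R T S) (by
      rw [hCs, Finset.mem_insert]
      right
      rw [Finset.mem_image]
      refine ⟨(R, T, S), ?_, rfl⟩
      rw [hidx, Finset.mem_product, Finset.mem_product, Finset.mem_filter, Finset.mem_range,
        Finset.mem_powerset]
      exact ⟨by simp only; omega, ⟨hT, hTc⟩, Finset.mem_univ _⟩)
    simp only [hcond] at h1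
    rwa [eval_aeval_comp] at h1
  have hcore := Loc.critCore_local (M := M) N k s B (by
    rintro l i ⟨a, b, hi⟩
    exact hB l a b hi) hs hk
  obtain ⟨g, hg, hgne⟩ := Loc.hits M N κ D1 (Loc.crit_of_core M N κ hcore) G'
    (by
      obtain ⟨x, hx, h1, _⟩ := hcommon' 0 ∅ (by simp)
      exact ⟨_, x, hx, h1, rfl⟩)
    (by
      rintro c c' h y ⟨x, hx, h1, h2⟩
      exact ⟨x, XX_mono (Nat.add_le_add_left h μ) hx, h1, h2⟩)
    (by
      intro c J r hJr
      have h1 : ∀ ab, ∃ (U : Matrix (Fin (r ab)) (Fin w) ℚ) (V : Matrix (Fin w) (Fin (r ab)) ℚ),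
          ab ∈ J → ∃ x ∈ XX Γ (μ + c),
            (U * Loc.P M (fun i => eval x (ψ i)) ab.1 ab.2 * V).det ≠ 0 := by
        intro ab
        by_cases hab : ab ∈ J
        · obtain ⟨g, ⟨x, hx, _, rfl⟩, hr⟩ := hJr ab hab
          obtain ⟨U, V, hUV⟩ := exists_mul_eq_one_of_le_rank _ hr
          exact ⟨U, V, fun _ => ⟨x, hx, by rw [hUV, Matrix.det_one]; exact one_ne_zero⟩⟩
        · exact ⟨0, 0, fun h => absurd h hab⟩
      choose U V hUV using h1
      obtain ⟨x, hx, h1, h2⟩ := hcommon' c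
        (J.image fun ab => aeval ψ (Qp M (U ab) (V ab) ab.1 ab.2)) (by
          intro F hF
          rw [Finset.mem_image] at hF
          obtain ⟨ab, hab, rfl⟩ := hF
          obtain ⟨x, hx, hne⟩ := hUV ab hab
          refine ⟨x, hx, ?_⟩
          rw [eval_aeval_comp, eval_Qp]
          exact hne)
      refine ⟨_, ⟨x, hx, h1, rfl⟩, fun ab hab => ?_⟩
      have h3 := h2 _ (Finset.mem_image_of_mem _ hab)
      rw [eval_aeval_comp, eval_Qp] at h3
      exact le_rank_of_det_ne_zero _ _ h3)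
    (by
      rintro c g ⟨x, hx, h1, rfl⟩ a b hab hbN R hR U V hnear
      have h2 := not_van M hw N k B hB hk (fun i => eval x (ψ i)) κ (hgood x h1) a b hab hbN R hR
        U V hnear
      obtain ⟨A', hA'⟩ := hFJinv x (h1 FJ (by rw [hCs]; exact Finset.mem_insert_self _ _))
      have h3 : ¬ Van Set.univ x D1 (aeval ψ (Qp M U V a b)) := fun h =>
        h2 (Van.comp ψ x Set.univ A' (fun j hj => absurd (Set.mem_univ j) hj) hA' _ _ h)
      obtain ⟨x', T', hT', _, hx', hne⟩ := exists_near _ _ h3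
      have h4 := XX_step hx x' T' hT' hx'
      rw [add_assoc] at h4
      obtain ⟨x'', hx'', h5, h6⟩ := hcommon' (c + D1) {aeval ψ (Qp M U V a b)} (by
        intro F hF
        rw [Finset.mem_singleton] at hF
        subst hF
        exact ⟨x', h4, hne⟩)
      refine ⟨_, ⟨x'', hx'', h5, rfl⟩, ?_⟩
      have h7 := h6 _ (Finset.mem_singleton_self _)
      rwa [eval_aeval_comp, eval_Qp] at h7) u v hf
  obtain ⟨x, hx, _, rfl⟩ := hg
  exact ⟨x, hx, hgne⟩

end Pool.Agent.Helper5.Orb
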