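import Pool.Agent.Helper5.Orb.Van

/-!
Generalised Wronskians: at a generic point the nonzero elements of a finite dimensional space of
polynomials vanish to bounded order along a set of coordinates.
-/

namespace Pool.Agent.Helper5.Orb

open MvPolynomial Module

section Wron

variable {σ : Type*} [Fintype σ] [DecidableEq σ] {I : Type*} [Fintype I]

/-- componentwise derivative -/
noncomputable def dv (i : σ) (v : I → MvPolynomial σ ℚ) : I → MvPolynomial σ ℚ :=
  fun a => pderiv i (v a)

/-- module of derivatives of order at most `e` -/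
noncomputable def NN (S : Set σ) (w : I → MvPolynomial σ ℚ) :
    ℕ → Submodule (MvPolynomial σ ℚ) (I → MvPolynomial σ ℚ)
  | 0 => Submodule.span _ {w}
  | e + 1 => NN S w e ⊔ Submodule.span _ {v | ∃ i ∈ S, ∃ u ∈ NN S w e, v = dv i u}

/-- constant combination -/
noncomputable def Lc (c : I → ℚ) (v : I → MvPolynomial σ ℚ) : MvPolynomial σ ℚ :=
  ∑ a, C (c a) * v a

omit [Fintype σ] [DecidableEq σ] in
theorem Lc_add (c : I → ℚ) (u v : I → MvPolynomial σ ℚ) : Lc c (u + v) = Lc c u + Lc c v := by
  simp only [Lc, Pi.add_apply, mul_add, Finset.sum_add_distrib]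

omit [Fintype σ] [DecidableEq σ] in
theorem Lc_smul (c : I → ℚ) (a : MvPolynomial σ ℚ) (v : I → MvPolynomial σ ℚ) :
    Lc c (a • v) = a * Lc c v := by
  simp only [Lc, Pi.smul_apply, smul_eq_mul, Finset.mul_sum]
  refine Finset.sum_congr rfl fun i _ => ?_
  ring

omit [Fintype σ] [DecidableEq σ] in
theorem Lc_zero (c : I → ℚ) : Lc c (0 : I → MvPolynomial σ ℚ) = 0 := by
  simp [Lc]

omit [Fintype σ] [DecidableEq σ] in
theorem Lc_dv (c : I → ℚ) (i : σ) (v : I → MvPolynomial σ ℚ) :
    Lc c (dv i v) = pderiv i (Lc c v) := by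
  simp only [Lc, dv, map_sum]
  refine Finset.sum_congr rfl fun a _ => ?_
  rw [pderiv_mul, pderiv_C, zero_mul, zero_add]

omit [Fintype σ] [DecidableEq σ] [Fintype I] in
theorem dv_smul (i : σ) (a : MvPolynomial σ ℚ) (v : I → MvPolynomial σ ℚ) :
    dv i (a • v) = pderiv i a • v + a • dv i v := by
  funext b
  simp only [dv, Pi.smul_apply, Pi.add_apply, smul_eq_mul, pderiv_mul]

omit [Fintype σ] [DecidableEq σ] [Fintype I] in
theorem dv_add (i : σ) (u v : I → MvPolynomial σ ℚ) : dv i (u + v) = dv i u + dv i v := by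
  funext b
  simp only [dv, Pi.add_apply, map_add]

variable (S : Set σ) (w : I → MvPolynomial σ ℚ)

omit [Fintype σ] [DecidableEq σ] [Fintype I] in
theorem NN_mono {e e' : ℕ} (h : e ≤ e') : NN S w e ≤ NN S w e' := by
  induction e', h using Nat.le_induction with
  | base => exact le_rfl
  | succ e' _ ih => exact ih.trans le_sup_left

omit [Fintype σ] [DecidableEq σ] [Fintype I] in
theorem dv_mem_NN {e : ℕ} {i : σ} (hi : i ∈ S) {u : I → MvPolynomial σ ℚ} (hu : u ∈ NN S w e) :
    dv i u ∈ NN S w (e + 1) :=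
  Submodule.mem_sup_right (Submodule.subset_span ⟨i, hi, u, hu, rfl⟩)

omit [Fintype σ] [DecidableEq σ] [Fintype I] in
theorem self_mem_NN : w ∈ NN S w 0 := Submodule.subset_span rfl

omit [Fintype σ] [DecidableEq σ] in
/-- vanishing of a combination passes to the derivatives -/
theorem van_NN (g : σ → ℚ) (c : I → ℚ) (e : ℕ) : ∀ e', Van S g (e + e') (Lc c w) →
    ∀ v ∈ NN S w e, Van S g e' (Lc c v) := by
  induction e with
  | zero =>
    intro e' h v hv
    rw [zero_add] at h
    obtain ⟨a, rfl⟩ := Submodule.mem_span_singleton.mp hv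
    rw [Lc_smul]
    exact h.mul a
  | succ e ih =>
    intro e' h v hv
    have h1 := ih (e' + 1) (by rw [show e + (e' + 1) = e + 1 + e' by ring]; exact h)
    obtain ⟨v1, hv1, v2, hv2, rfl⟩ := Submodule.mem_sup.mp hv
    rw [Lc_add]
    refine (h1 v1 hv1).mono1.add ?_
    clear hv
    induction hv2 using Submodule.span_induction with
    | mem x hx =>
      obtain ⟨i, hi, u, hu, rfl⟩ := hx
      rw [Lc_dv]
      exact (h1 u hu).2 i hi
    | zero => rw [Lc_zero]; exact Van.zero e'
    | add x y _ _ hx hy =>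
      rw [Lc_add]
      exact hx.add hy
    | smul a x _ hx =>
      rw [Lc_smul]
      exact hx.mul a

omit [Fintype σ] [DecidableEq σ] in
theorem van_of_NN (g : σ → ℚ) (c : I → ℚ)
    (h : ∀ e', ∀ v ∈ NN S w e', eval g (Lc c v) = 0) (e : ℕ) :
    ∀ e', ∀ v ∈ NN S w e', Van S g e (Lc c v) := by
  induction e with
  | zero => exact h
  | succ e ih =>
    intro e' v hv
    refine ⟨h e' v hv, fun i hi => ?_⟩
    rw [← Lc_dv]
    exact ih (e' + 1) _ (dv_mem_NN S w hi hv)

omit [DecidableEq σ] in
/-- stabilisation up to torsion -/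
theorem exists_stable : ∃ e ≤ Fintype.card I, ∃ q : MvPolynomial σ ℚ, q ≠ 0 ∧
    ∀ v ∈ NN S w (e + 1), q • v ∈ NN S w e := by
  classical
  -- pigeonhole on the ranks
  have hle : ∀ e, finrank (MvPolynomial σ ℚ) (NN S w e) ≤ Fintype.card I := by
    intro e
    have := Submodule.finrank_le (NN S w e)
    rwa [Module.finrank_fintype_fun_eq_card] at this
  have hex : ∃ e ≤ Fintype.card I, finrank (MvPolynomial σ ℚ) (NN S w (e + 1)) ≤
      finrank (MvPolynomial σ ℚ) (NN S w e) := by
    by_contra hcon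
    push Not at hcon
    have h1 : ∀ e, e ≤ Fintype.card I + 1 → e ≤ finrank (MvPolynomial σ ℚ) (NN S w e) := by
      intro e
      induction e with
      | zero => intro _; exact Nat.zero_le _
      | succ e ih =>
        intro he
        have h2 := ih (by omega)
        have h3 := hcon e (by omega)
        omega
    have h2 := h1 (Fintype.card I + 1) le_rfl
    have h3 := hle (Fintype.card I + 1)
    omega
  obtain ⟨e, he, hrank⟩ := hex
  refine ⟨e, he, ?_⟩
  set N := NN S w e with hN
  set N' := NN S w (e + 1) with hN'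
  have hNN' : N ≤ N' := NN_mono S w (Nat.le_succ e)
  have htor : ∀ v : N', ∃ a : MvPolynomial σ ℚ, a ≠ 0 ∧ a • (v : I → MvPolynomial σ ℚ) ∈ N := by
    have h1 := Submodule.finrank_quotient_add_finrank (N.submoduleOf N')
    have h2 : finrank (MvPolynomial σ ℚ) (N.submoduleOf N') = finrank (MvPolynomial σ ℚ) N :=
      LinearEquiv.finrank_eq (Submodule.submoduleOfEquivOfLe hNN')
    have h3 : finrank (MvPolynomial σ ℚ) (N' ⧸ N.submoduleOf N') = 0 := by omega
    rw [Module.finrank_eq_zero_iff] at h3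
    intro v
    obtain ⟨a, ha, hav⟩ := h3 (Submodule.Quotient.mk v)
    refine ⟨a, ha, ?_⟩
    rw [← Submodule.Quotient.mk_smul, Submodule.Quotient.mk_eq_zero] at hav
    exact hav
  obtain ⟨s, hs⟩ := (IsNoetherian.noetherian N' : N'.FG)
  choose a ha0 ha using htor
  have hsN : ∀ v ∈ s, v ∈ N' := fun v hv => by rw [← hs]; exact Submodule.subset_span hv
  refine ⟨∏ v : s, a ⟨v.1, hsN v.1 v.2⟩, Finset.prod_ne_zero_iff.mpr fun v _ => ha0 _, ?_⟩
  intro v hv
  rw [← hs] at hv
  induction hv using Submodule.span_induction with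
  | mem x hx =>
    have hx' : x ∈ s := hx
    rw [← Finset.mul_prod_erase Finset.univ (fun v : s => a ⟨v.1, hsN v.1 v.2⟩)
      (Finset.mem_univ (⟨x, hx'⟩ : s)), mul_comm, mul_smul]
    exact N.smul_mem _ (ha ⟨x, hsN x hx'⟩)
  | zero => rw [smul_zero]; exact N.zero_mem
  | add x y _ _ hx hy => rw [smul_add]; exact N.add_mem hx hy
  | smul b x _ hx =>
    rw [smul_comm]
    exact N.smul_mem _ hx

omit [DecidableEq σ] in
/-- **Generalised Wronskian lemma** for families. -/
theorem wron_family : ∃ q : MvPolynomial σ ℚ, q ≠ 0 ∧ ∀ g : σ → ℚ, eval g q ≠ 0 →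
    ∀ c : I → ℚ, Van S g (Fintype.card I) (Lc c w) → ∀ e, Van S g e (Lc c w) := by
  classical
  obtain ⟨e, he, q, hq, hqN⟩ := exists_stable S w
  refine ⟨q, hq, fun g hg c hv => ?_⟩
  have hbase : ∀ v ∈ NN S w e, eval g (Lc c v) = 0 := by
    intro v hvN
    exact van_NN S w g c e 0 (by rw [add_zero]; exact hv.mono he) v hvN
  -- the localisation at `g` is closed under derivatives
  have hloc : ∀ e', ∀ v ∈ NN S w e', ∃ a : MvPolynomial σ ℚ, eval g a ≠ 0 ∧
      a • v ∈ NN S w e := by
    intro e'
    induction e' with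
    | zero =>
      intro v hv'
      exact ⟨1, by simp, by rw [one_smul]; exact NN_mono S w (Nat.zero_le e) hv'⟩
    | succ e' ih =>
      intro v hv'
      obtain ⟨v1, hv1, v2, hv2, rfl⟩ := Submodule.mem_sup.mp hv'
      have h2 : ∃ a : MvPolynomial σ ℚ, eval g a ≠ 0 ∧ a • v2 ∈ NN S w e := by
        clear hv'
        induction hv2 using Submodule.span_induction with
        | mem x hx =>
          obtain ⟨i, hi, u, hu, rfl⟩ := hx
          obtain ⟨a, ha, hau⟩ := ih u hu
          refine ⟨q * (a * a), by rw [map_mul, map_mul]; exact mul_ne_zero hg (mul_ne_zero ha ha),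
            ?_⟩
          have h3 := hqN _ (dv_mem_NN S w hi hau)
          rw [dv_smul] at h3
          have h4 : (q * (a * a)) • dv i u = a • (q • (pderiv i a • u + a • dv i u)) -
              (q * pderiv i a) • (a • u) := by
            simp only [smul_add, smul_smul]
            rw [eq_sub_iff_add_eq, add_comm]
            congr 1
            · congr 1; ring
            · congr 1; ring
          rw [h4]
          exact Submodule.sub_mem _ (Submodule.smul_mem _ _ h3) (Submodule.smul_mem _ _ hau)
        | zero => exact ⟨1, by simp, by rw [smul_zero]; exact Submodule.zero_mem _⟩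
        | add x y _ _ hx hy =>
          obtain ⟨a, ha, hax⟩ := hx
          obtain ⟨b, hb, hby⟩ := hy
          refine ⟨a * b, by rw [map_mul]; exact mul_ne_zero ha hb, ?_⟩
          have h3 : (a * b) • (x + y) = b • (a • x) + a • (b • y) := by
            simp only [smul_add, smul_smul]
            congr 1
            rw [mul_comm]
          rw [h3]
          exact Submodule.add_mem _ (Submodule.smul_mem _ _ hax) (Submodule.smul_mem _ _ hby)
        | smul b x _ hx =>
          obtain ⟨a, ha, hax⟩ := hx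
          refine ⟨a, ha, ?_⟩
          rw [smul_comm]
          exact Submodule.smul_mem _ _ hax
      obtain ⟨a, ha, hav⟩ := ih v1 hv1
      obtain ⟨b, hb, hbv⟩ := h2
      refine ⟨a * b, by rw [map_mul]; exact mul_ne_zero ha hb, ?_⟩
      have h3 : (a * b) • (v1 + v2) = b • (a • v1) + a • (b • v2) := by
        simp only [smul_add, smul_smul]
        congr 1
        rw [mul_comm]
      rw [h3]
      exact Submodule.add_mem _ (Submodule.smul_mem _ _ hav) (Submodule.smul_mem _ _ hbv)
  have hall : ∀ e', ∀ v ∈ NN S w e', eval g (Lc c v) = 0 := by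
    intro e' v hv'
    obtain ⟨a, ha, hav⟩ := hloc e' v hv'
    have h1 := hbase _ hav
    rw [Lc_smul, map_mul] at h1
    exact (mul_eq_zero.mp h1).resolve_left ha
  intro e'
  exact van_of_NN S w g c hall e' 0 w (self_mem_NN S w)

omit [DecidableEq σ] in
/-- **Generalised Wronskian lemma** for spaces. -/
theorem wron_space (W : Submodule ℚ (MvPolynomial σ ℚ)) [FiniteDimensional ℚ W] :
    ∃ q : MvPolynomial σ ℚ, q ≠ 0 ∧ ∀ g : σ → ℚ, eval g q ≠ 0 →
      ∀ f ∈ W, Van S g (finrank ℚ W) f → ∀ e, Van S g e f := by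
  classical
  set b := Module.finBasis ℚ W with hb
  obtain ⟨q, hq, h⟩ := wron_family S (fun a => ((b a : W) : MvPolynomial σ ℚ))
  refine ⟨q, hq, fun g hg f hf hv e => ?_⟩
  have h1 : f = Lc (fun a => b.repr ⟨f, hf⟩ a) (fun a => ((b a : W) : MvPolynomial σ ℚ)) := by
    have h2 := b.sum_repr ⟨f, hf⟩
    have h3 := congrArg (fun z : W => (z : MvPolynomial σ ℚ)) h2
    simp only at h3
    refine h3.symm.trans ?_
    rw [Lc]
    simp only [AddSubmonoidClass.coe_finset_sum, SetLike.val_smul]
    refine Finset.sum_congr rfl fun a _ => ?_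
    rw [smul_eq_C_mul]
  rw [h1] at hv ⊢
  apply h g hg
  rwa [Fintype.card_fin]

end Wron

end Pool.Agent.Helper5.Orb
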