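import Pool.Agent.Helper8.Loc.Final
import Pool.Agent.Helper5.Orb.Wron

/-!
The minors of a program vanish to bounded order at generic points along few coordinates.
-/

namespace Pool.Agent.Helper5.Orb

open Matrix MvPolynomial Pool.Agent.Helper8 Module

section Transfer

variable {p : ℕ}

theorem Van.mono_set {σ : Type*} {S S' : Set σ} (hSS : S ⊆ S') {x : σ → ℚ} {e : ℕ} :
    ∀ {F : MvPolynomial σ ℚ}, Van S' x e F → Van S x e F := by
  induction e with
  | zero => intro F h; exact h
  | succ e ih => intro F h; exact ⟨h.1, fun i hi => ih (h.2 i (hSS hi))⟩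

theorem van_rename (B : Finset (Fin p)) (S : Set (Fin p)) (g : Fin p → ℚ) (e : ℕ) :
    ∀ F : MvPolynomial B ℚ, Van S g e (rename Subtype.val F) ↔
      Van {b : B | b.1 ∈ S} (fun b => g b.1) e F := by
  classical
  induction e with
  | zero =>
    intro F
    simp only [Van, eval_rename]
    rfl
  | succ e ih =>
    intro F
    simp only [Van, eval_rename]
    constructor
    · rintro ⟨h1, h2⟩
      refine ⟨h1, fun b hb => ?_⟩
      rw [← ih, ← pderiv_rename Subtype.val_injective]
      exact h2 b.1 hb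
    · rintro ⟨h1, h2⟩
      refine ⟨h1, fun i hi => ?_⟩
      by_cases hiB : i ∈ B
      · have := h2 ⟨i, hiB⟩ hi
        rw [← ih, ← pderiv_rename Subtype.val_injective] at this
        exact this
      · have h3 : pderiv i (rename Subtype.val F : MvPolynomial (Fin p) ℚ) = 0 := by
          apply pderiv_eq_zero_of_notMem_vars
          intro hmem
          have h4 := vars_rename Subtype.val F hmem
          rw [Finset.mem_image] at h4
          obtain ⟨b, _, hb⟩ := h4
          exact hiB (hb ▸ b.2)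
        rw [h3]
        exact Van.zero e

end Transfer

variable {w p : ℕ} (M : ℕ → Matrix (Fin w) (Fin w) (MvPolynomial (Fin p) ℚ))

section Span

variable {Λ : Type*} [DecidableEq Λ] (m : Λ → ℕ)

/-- span of the products of entries of the layers indexed by `X` -/
noncomputable def E (X : Finset Λ) : Submodule ℚ (MvPolynomial (Fin p) ℚ) :=
  Submodule.span ℚ (Set.range fun κ : Λ → Fin w × Fin w => ∏ a ∈ X, M (m a) (κ a).1 (κ a).2)

omit [DecidableEq Λ] in
theorem E_one (hw : 0 < w) : (1 : MvPolynomial (Fin p) ℚ) ∈ E M m ∅ :=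
  Submodule.subset_span ⟨fun _ => (⟨0, hw⟩, ⟨0, hw⟩), by simp⟩

omit [DecidableEq Λ] in
theorem E_entry (a : Λ) (i j : Fin w) : M (m a) i j ∈ E M m {a} :=
  Submodule.subset_span ⟨fun _ => (i, j), by simp⟩

theorem E_mul {X Y : Finset Λ} (h : Disjoint X Y) {A B : MvPolynomial (Fin p) ℚ}
    (hA : A ∈ E M m X) (hB : B ∈ E M m Y) : A * B ∈ E M m (X ∪ Y) := by
  have h1 := Submodule.mul_mem_mul hA hB
  unfold E at h1
  rw [Submodule.span_mul_span] at h1
  refine Submodule.span_mono ?_ h1
  rintro _ ⟨_, ⟨κ1, rfl⟩, _, ⟨κ2, rfl⟩, rfl⟩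
  refine ⟨fun a => if a ∈ X then κ1 a else κ2 a, ?_⟩
  simp only
  rw [Finset.prod_union h]
  congr 1
  · exact Finset.prod_congr rfl fun a ha => by simp [ha]
  · refine Finset.prod_congr rfl fun a ha => ?_
    have : a ∉ X := fun h' => Finset.disjoint_left.mp h h' ha
    simp [this]

omit [DecidableEq Λ] in
theorem E_le (X : Finset Λ) : E M m X ≤ Submodule.span ℚ
    (Set.range fun κ : X → Fin w × Fin w => ∏ a : X, M (m a.1) (κ a).1 (κ a).2) := by
  apply Submodule.span_mono
  rintro _ ⟨κ, rfl⟩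
  refine ⟨fun a => κ a.1, ?_⟩
  exact Finset.prod_coe_sort X (fun a => M (m a) (κ a).1 (κ a).2)

instance (X : Finset Λ) : FiniteDimensional ℚ (E M m X) := by
  have : FiniteDimensional ℚ (Submodule.span ℚ
    (Set.range fun κ : X → Fin w × Fin w => ∏ a : X, M (m a.1) (κ a).1 (κ a).2)) :=
    FiniteDimensional.span_of_finite ℚ (Set.finite_range _)
  exact Submodule.finiteDimensional_of_le (E_le M m X)

theorem finrank_E (X : Finset Λ) : finrank ℚ (E M m X) ≤ (w * w) ^ X.card := by
  have : FiniteDimensional ℚ (Submodule.span ℚ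
    (Set.range fun κ : X → Fin w × Fin w => ∏ a : X, M (m a.1) (κ a).1 (κ a).2)) :=
    FiniteDimensional.span_of_finite ℚ (Set.finite_range _)
  refine (Submodule.finrank_mono (E_le M m X)).trans ?_
  refine (finrank_range_le_card _).trans ?_
  simp

omit [DecidableEq Λ] in
theorem E_supported (B : ℕ → Finset (Fin p)) (hB : ∀ l i j, (M l i j).vars ⊆ B l) (X : Finset Λ)
    (Y : Finset (Fin p)) (hXY : ∀ a ∈ X, B (m a) ⊆ Y) :
    ∀ f ∈ E M m X, f ∈ supported ℚ (Y : Set (Fin p)) := by
  intro f hf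
  unfold E at hf
  induction hf using Submodule.span_induction with
  | mem x hx =>
    obtain ⟨κ, rfl⟩ := hx
    apply Subalgebra.prod_mem
    intro a ha
    rw [mem_supported]
    exact_mod_cast (hB (m a) _ _).trans (hXY a ha)
  | zero => exact Subalgebra.zero_mem _
  | add x y _ _ hx hy => exact Subalgebra.add_mem _ hx hy
  | smul c x _ hx => exact Subalgebra.smul_mem _ hx c

end Span

section Minor

variable {R : ℕ}

theorem E_seg (hw : 0 < w) (T : Finset ℕ) (Mg : ℕ → Matrix (Fin w) (Fin w) (MvPolynomial (Fin p) ℚ))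
    (hT : ∀ l ∈ T, Mg l = M l) (hT' : ∀ l, l ∉ T → ∀ i j, ∃ c : ℚ, Mg l i j = C c) (r : Fin R)
    (a b : ℕ) (hab : a ≤ b) : ∀ i j, seg Mg a b i j ∈
      E M (Prod.snd : Fin R × ℕ → ℕ) ({r} ×ˢ T.filter fun l => a ≤ l ∧ l < b) := by
  classical
  induction b, hab using Nat.le_induction with
  | base =>
    intro i j
    have h1 : (T.filter fun l => a ≤ l ∧ l < a) = ∅ := by
      apply Finset.filter_false_of_mem
      intro l _; omega
    rw [h1, Finset.product_empty, seg_self, Matrix.one_apply]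
    split_ifs
    · exact E_one M _ hw
    · exact Submodule.zero_mem _
  | succ b hab ih =>
    intro i j
    rw [seg_succ _ hab, Matrix.mul_apply]
    apply Submodule.sum_mem
    intro c _
    by_cases hb : b ∈ T
    · have h1 : ({r} ×ˢ T.filter fun l => a ≤ l ∧ l < b + 1) =
          ({r} ×ˢ T.filter fun l => a ≤ l ∧ l < b) ∪ {(r, b)} := by
        ext ⟨r', l⟩
        simp only [Finset.mem_product, Finset.mem_singleton, Finset.mem_filter, Finset.mem_union,
          Prod.mk.injEq]
        constructor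
        · rintro ⟨h1, h2, h3, h4⟩
          rcases Nat.lt_or_eq_of_le (Nat.lt_succ_iff.mp h4) with h5 | h5
          · exact Or.inl ⟨h1, h2, h3, h5⟩
          · exact Or.inr ⟨h1, h5⟩
        · rintro (⟨h1, h2, h3, h4⟩ | ⟨h1, h2⟩)
          · exact ⟨h1, h2, h3, by omega⟩
          · subst h2; exact ⟨h1, hb, hab, by omega⟩
      rw [h1, hT b hb]
      apply E_mul
      · rw [Finset.disjoint_left]
        rintro ⟨r', l⟩ h2 h3
        simp only [Finset.mem_product, Finset.mem_singleton, Finset.mem_filter,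
          Prod.mk.injEq] at h2 h3
        omega
      · exact ih i c
      · exact E_entry M (Prod.snd : Fin R × ℕ → ℕ) (r, b) c j
    · have h1 : (T.filter fun l => a ≤ l ∧ l < b + 1) = T.filter fun l => a ≤ l ∧ l < b := by
        apply Finset.filter_congr
        intro l hl
        have : l ≠ b := by rintro rfl; exact hb hl
        omega
      rw [h1]
      obtain ⟨q, hq⟩ := hT' b hb c j
      rw [hq, mul_comm, ← smul_eq_C_mul]
      exact Submodule.smul_mem _ _ (ih i c)

/-- the minor as a polynomial -/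
noncomputable def Qp (M : ℕ → Matrix (Fin w) (Fin w) (MvPolynomial (Fin p) ℚ))
    (U : Matrix (Fin R) (Fin w) ℚ) (V : Matrix (Fin w) (Fin R) ℚ) (a b : ℕ) :
    MvPolynomial (Fin p) ℚ :=
  (U.map (C : ℚ →+* MvPolynomial (Fin p) ℚ) * seg M a b *
    V.map (C : ℚ →+* MvPolynomial (Fin p) ℚ)).det

theorem eval_Qp (U : Matrix (Fin R) (Fin w) ℚ) (V : Matrix (Fin w) (Fin R) ℚ) (a b : ℕ)
    (y : Fin p → ℚ) : eval y (Qp M U V a b) = (U * Loc.P M y a b * V).det := by
  unfold Qp
  rw [RingHom.map_det, RingHom.mapMatrix_apply]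
  congr 1
  rw [Matrix.map_mul, Matrix.map_mul, Loc.seg_map]
  congr 1
  · congr 1
    ext i j; simp
  · ext i j; simp

theorem Qp_mem_E (hw : 0 < w) (T : Finset ℕ)
    (Mg : ℕ → Matrix (Fin w) (Fin w) (MvPolynomial (Fin p) ℚ))
    (hT : ∀ l ∈ T, Mg l = M l) (hT' : ∀ l, l ∉ T → ∀ i j, ∃ c : ℚ, Mg l i j = C c)
    (U : Matrix (Fin R) (Fin w) ℚ) (V : Matrix (Fin w) (Fin R) ℚ) (a b : ℕ) (hab : a ≤ b) :
    Qp Mg U V a b ∈ E M (Prod.snd : Fin R × ℕ → ℕ)
      (Finset.univ ×ˢ T.filter fun l => a ≤ l ∧ l < b) := by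
  classical
  unfold Qp
  rw [Matrix.det_apply]
  apply Submodule.sum_mem
  intro s _
  rw [Units.smul_def, ← Int.cast_smul_eq_zsmul ℚ]
  apply Submodule.smul_mem
  have key : ∀ F : Finset (Fin R), ∏ i ∈ F, (U.map (C : ℚ →+* MvPolynomial (Fin p) ℚ) *
      seg Mg a b * V.map (C : ℚ →+* MvPolynomial (Fin p) ℚ)) (s i) i ∈
      E M (Prod.snd : Fin R × ℕ → ℕ) (F ×ˢ T.filter fun l => a ≤ l ∧ l < b) := by
    intro F
    induction F using Finset.induction_on with
    | empty =>
      rw [Finset.prod_empty, Finset.empty_product]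
      exact E_one M _ hw
    | insert r F hr ih =>
      rw [Finset.prod_insert hr]
      have h1 : (insert r F ×ˢ T.filter fun l => a ≤ l ∧ l < b) =
          ({r} ×ˢ T.filter fun l => a ≤ l ∧ l < b) ∪ (F ×ˢ T.filter fun l => a ≤ l ∧ l < b) := by
        rw [← Finset.union_product, ← Finset.insert_eq]
      rw [h1]
      apply E_mul _ _ _ _ ih
      · rw [Finset.disjoint_product]
        left
        rw [Finset.disjoint_singleton_left]
        exact hr
      · rw [Matrix.mul_apply]
        apply Submodule.sum_mem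
        intro j _
        rw [Matrix.map_apply, mul_comm, ← smul_eq_C_mul]
        apply Submodule.smul_mem
        rw [Matrix.mul_apply]
        apply Submodule.sum_mem
        intro i _
        rw [Matrix.map_apply, ← smul_eq_C_mul]
        apply Submodule.smul_mem
        exact E_seg M hw T Mg hT hT' r a b hab i j
  exact key Finset.univ

end Minor

/-- the generic condition for a set of layers -/
theorem exists_cond (B : ℕ → Finset (Fin p)) (hB : ∀ l i j, (M l i j).vars ⊆ B l) (R : ℕ)
    (T : Finset ℕ) (S : Finset (Fin p)) :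
    ∃ q : MvPolynomial (T.biUnion B) ℚ, q ≠ 0 ∧ ∀ g : Fin p → ℚ, eval (fun b => g b.1) q ≠ 0 →
      ∀ f ∈ E M (Prod.snd : Fin R × ℕ → ℕ) (Finset.univ ×ˢ T),
        Van (S : Set (Fin p)) g ((w * w) ^ (R * T.card)) f → ∀ e, Van (S : Set (Fin p)) g e f := by
  classical
  set BT := T.biUnion B with hBT
  set W := E M (Prod.snd : Fin R × ℕ → ℕ) (Finset.univ ×ˢ T) with hW
  set φ : MvPolynomial BT ℚ →ₗ[ℚ] MvPolynomial (Fin p) ℚ :=
    (rename (Subtype.val : BT → Fin p)).toLinearMap with hφ
  have hinj : Function.Injective φ := rename_injective _ Subtype.val_injective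
  set W' := W.comap φ with hW'
  have e0 : W' ≃ₗ[ℚ] W'.map φ := Submodule.equivMapOfInjective φ hinj W'
  have e1 : finrank ℚ (W'.map φ) = finrank ℚ W' := e0.symm.finrank_eq
  have hfd1 : FiniteDimensional ℚ (W'.map φ) :=
    Submodule.finiteDimensional_of_le (Submodule.map_comap_le φ W)
  have hfd : FiniteDimensional ℚ W' := LinearEquiv.finiteDimensional e0.symm
  have hr : finrank ℚ W' ≤ (w * w) ^ (R * T.card) := by
    rw [← e1]
    refine (Submodule.finrank_mono (Submodule.map_comap_le φ W)).trans ?_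
    refine (finrank_E M _ _).trans ?_
    rw [Finset.card_product, Finset.card_univ, Fintype.card_fin]
  obtain ⟨q, hq, h⟩ := wron_space {b : BT | b.1 ∈ (S : Set (Fin p))} W'
  refine ⟨q, hq, fun g hg f hf hv e => ?_⟩
  have hsup := E_supported M (Prod.snd : Fin R × ℕ → ℕ) B hB (Finset.univ ×ˢ T) BT (by
    rintro ⟨r, l⟩ ha
    rw [Finset.mem_product] at ha
    exact Finset.subset_biUnion_of_mem B ha.2) f hf
  obtain ⟨f', rfl⟩ : ∃ f' : MvPolynomial BT ℚ, rename Subtype.val f' = f := by
    rw [supported_eq_range_rename] at hsup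
    obtain ⟨f', hf'⟩ := hsup
    exact ⟨f', hf'⟩
  rw [van_rename] at hv ⊢
  exact h _ hg f' hf (hv.mono hr) e

end Pool.Agent.Helper5.Orb
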