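import Pool.Agent.Helper5.Orb.Prog

/-!
The minors at generic points near which they do not vanish; right inverses.
-/

namespace Pool.Agent.Helper5.Orb

open Matrix MvPolynomial Pool.Agent.Helper8 Module

variable {w p : ℕ} (M : ℕ → Matrix (Fin w) (Fin w) (MvPolynomial (Fin p) ℚ))

theorem not_van (hw : 0 < w) (N k : ℕ) (B : ℕ → Finset (Fin p))
    (hB : ∀ l i j, (M l i j).vars ⊆ B l)
    (hk : ∀ i, ((Finset.range N).filter fun l => i ∈ B l).card ≤ k)
    (g : Fin p → ℚ) (κ : ℕ)
    (hgood : ∀ R ≤ w, ∀ T ⊆ Finset.range N, T.card ≤ k * κ → ∀ S : Finset (Fin p),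
      ∀ f ∈ E M (Prod.snd : Fin R × ℕ → ℕ) (Finset.univ ×ˢ T),
        Van (S : Set (Fin p)) g ((w * w) ^ (R * T.card)) f → ∀ e, Van (S : Set (Fin p)) g e f)
    (a b : ℕ) (hab : a ≤ b) (hbN : b ≤ N) (R : ℕ) (hR : R ≤ w)
    (U : Matrix (Fin R) (Fin w) ℚ) (V : Matrix (Fin w) (Fin R) ℚ)
    (hnear : Loc.Near M κ g U V a b) :
    ¬ Van Set.univ g ((w * w) ^ (w * (k * κ))) (Qp M U V a b) := by
  classical
  intro hvan
  obtain ⟨y, S, hS, hy, hdet⟩ := hnear
  set T : Finset ℕ := (Finset.range N).filter fun l => (a ≤ l ∧ l < b) ∧ (B l ∩ S).Nonempty with hT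
  have hTN : T ⊆ Finset.range N := Finset.filter_subset _ _
  have hTcard : T.card ≤ k * κ := by
    calc T.card ≤ (S.biUnion fun i => (Finset.range N).filter fun l => i ∈ B l).card := by
          apply Finset.card_le_card
          intro l hl
          rw [hT, Finset.mem_filter] at hl
          obtain ⟨h1, _, i, hi⟩ := hl
          rw [Finset.mem_inter] at hi
          rw [Finset.mem_biUnion]
          exact ⟨i, hi.2, Finset.mem_filter.mpr ⟨h1, hi.1⟩⟩
      _ ≤ ∑ i ∈ S, ((Finset.range N).filter fun l => i ∈ B l).card := Finset.card_biUnion_le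
      _ ≤ ∑ _i ∈ S, k := Finset.sum_le_sum fun i _ => hk i
      _ = S.card * k := by rw [Finset.sum_const, smul_eq_mul]
      _ ≤ k * κ := by rw [mul_comm]; exact Nat.mul_le_mul_left _ hS
  have hTf : (T.filter fun l => a ≤ l ∧ l < b) = T := by
    apply Finset.filter_true_of_mem
    intro l hl
    rw [hT, Finset.mem_filter] at hl
    exact hl.2.1
  set Mg : ℕ → Matrix (Fin w) (Fin w) (MvPolynomial (Fin p) ℚ) := fun l =>
    if l ∈ T then M l else (M l).map fun q => C (eval g q) with hMg
  have hmem := Qp_mem_E M (R := R) hw T Mg (fun l hl => by simp [hMg, hl])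
    (fun l hl i j => ⟨eval g (M l i j), by simp [hMg, hl]⟩) U V a b hab
  rw [hTf] at hmem
  -- the two minors agree on the subspace
  have hagree : ∀ y', (∀ i, i ∉ (S : Set (Fin p)) → y' i = g i) →
      eval y' (Qp M U V a b) = eval y' (Qp Mg U V a b) := by
    intro y' hy'
    rw [eval_Qp, eval_Qp]
    congr 3
    unfold Loc.P
    apply seg_congr
    intro l hal hlb
    by_cases hl : l ∈ T
    · simp only [Loc.ev, hMg, hl, if_true]
    · simp only [Loc.ev, hMg, hl, if_false]
      ext i j
      simp only [Matrix.map_apply, eval_C]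
      have hne : ¬ (B l ∩ S).Nonempty := by
        intro hne
        apply hl
        rw [hT, Finset.mem_filter, Finset.mem_range]
        exact ⟨by omega, ⟨hal, hlb⟩, hne⟩
      apply eval₂Hom_congr' rfl _ rfl
      intro v hv _
      apply hy'
      intro hvS
      exact hne ⟨v, Finset.mem_inter.mpr ⟨hB l i j hv, hvS⟩⟩
  have h1 : Van (S : Set (Fin p)) g ((w * w) ^ (w * (k * κ))) (Qp M U V a b) :=
    hvan.mono_set (Set.subset_univ _)
  have h2 := van_congr hagree h1
  have hww : 1 ≤ w * w := Nat.mul_pos hw hw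
  have h3 : (w * w) ^ (R * T.card) ≤ (w * w) ^ (w * (k * κ)) :=
    Nat.pow_le_pow_right hww (Nat.mul_le_mul hR hTcard)
  have h4 := hgood R hR T hTN hTcard S _ hmem (h2.mono h3)
  have h5 := zero_on_of_van _ _ le_rfl h4 y (fun i hi => hy i hi)
  rw [← hagree y (fun i hi => hy i hi), eval_Qp] at h5
  exact hdet h5

/-- right inverse supported on few rows -/
theorem exists_right_inverse {n : ℕ} {β : Type*} [Fintype β] [DecidableEq β]
    (J : β → Fin n → ℚ) (hJ : LinearIndependent ℚ J) :
    ∃ (T : Finset (Fin n)) (A' : Fin n → β → ℚ), T.card ≤ Fintype.card β ∧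
      (∀ j, j ∉ T → ∀ i, A' j i = 0) ∧
      ∀ i i', ∑ j, J i j * A' j i' = if i = i' then 1 else 0 := by
  classical
  set Jm : Matrix β (Fin n) ℚ := Matrix.of J with hJm
  have hrank : Jm.rank = Fintype.card β := LinearIndependent.rank_matrix hJ
  have hspan : Submodule.span ℚ (Set.range Jm.col) = ⊤ := by
    rw [← Matrix.range_mulVecLin]
    apply Submodule.eq_top_of_finrank_eq
    rw [Module.finrank_fintype_fun_eq_card]
    exact hrank
  obtain ⟨κ, a, hinj, hsp, hli⟩ := exists_linearIndependent' (K := ℚ) Jm.col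
  have hfin : Finite κ := Finite.of_injective a hinj
  have := Fintype.ofFinite κ
  have hcard : Fintype.card κ ≤ Fintype.card β := by
    have := hli.fintype_card_le_finrank
    rwa [Module.finrank_fintype_fun_eq_card] at this
  rw [hspan] at hsp
  have hc : ∀ i' : β, ∃ c : κ → ℚ, ∑ x, c x • (Jm.col ∘ a) x = Pi.single i' (1 : ℚ) := by
    intro i'
    have : Pi.single i' (1 : ℚ) ∈ Submodule.span ℚ (Set.range (Jm.col ∘ a)) := by
      rw [hsp]; exact Submodule.mem_top
    exact Submodule.mem_span_range_iff_exists_fun ℚ |>.mp this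
  choose c hc using hc
  refine ⟨Finset.univ.image a, fun j i' => ∑ x : κ, if a x = j then c i' x else 0, ?_, ?_, ?_⟩
  · exact Finset.card_image_le.trans (by rw [Finset.card_univ]; exact hcard)
  · intro j hj i
    apply Finset.sum_eq_zero
    intro x _
    rw [if_neg]
    rintro rfl
    exact hj (Finset.mem_image_of_mem a (Finset.mem_univ x))
  · intro i i'
    have h1 : ∑ j, J i j * (∑ x : κ, if a x = j then c i' x else 0) =
        ∑ x : κ, c i' x * J i (a x) := by
      simp only [Finset.mul_sum]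
      rw [Finset.sum_comm]
      refine Finset.sum_congr rfl fun x _ => ?_
      simp only [mul_ite, mul_zero]
      rw [Finset.sum_ite_eq Finset.univ (a x), if_pos (Finset.mem_univ _), mul_comm]
    rw [h1]
    have h2 := congrFun (hc i') i
    simp only [Finset.sum_apply, Pi.smul_apply, Function.comp_apply, smul_eq_mul] at h2
    have h3 : ∀ x, Jm.col (a x) i = J i (a x) := fun x => rfl
    simp only [h3] at h2
    rw [h2, Pi.single_apply]

/-- a nonzero polynomial in few components of a map of full rank is nonzero near the point -/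
theorem exists_near_comp {n : ℕ} (ψ : Fin p → MvPolynomial (Fin n) ℚ) (x0 : Fin n → ℚ)
    (hJ : LinearIndependent ℚ (fun i : Fin p => fun j => eval x0 (pderiv j (ψ i))))
    (B : Finset (Fin p)) (q : MvPolynomial B ℚ) (hq : q ≠ 0) :
    ∃ (x : Fin n → ℚ) (T : Finset (Fin n)), T.card ≤ B.card ∧ (∀ i, i ∉ T → x i = x0 i) ∧
      eval (fun b : B => eval x (ψ b.1)) q ≠ 0 := by
  classical
  obtain ⟨T, A', hT, hA', hinv⟩ := exists_right_inverse
    (fun b : B => fun j => eval x0 (pderiv j (ψ b.1))) (hJ.comp _ Subtype.val_injective)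
  by_contra hcon
  push Not at hcon
  apply hq
  have hev : ∀ (x : Fin n → ℚ), eval x (aeval (fun b : B => ψ b.1) q) =
      eval (fun b : B => eval x (ψ b.1)) q := by
    intro x
    rw [aeval_def, ← coe_eval₂Hom, ← RingHom.comp_apply]
    congr 1
    apply MvPolynomial.ringHom_ext
    · intro c; simp
    · intro j; simp
  have h1 : ∀ e, Van (T : Set (Fin n)) x0 e (aeval (fun b : B => ψ b.1) q) := by
    intro e
    apply van_of_zero_on
    intro y hy
    rw [hev]
    exact hcon y T (by rw [Fintype.card_coe] at hT; exact hT) (fun i hi => hy i (by simpa using hi))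
  have h2 : ∀ e, Van Set.univ (fun b : B => eval x0 (ψ b.1)) e q := fun e =>
    Van.comp (fun b : B => ψ b.1) x0 (T : Set (Fin n)) A' (fun j hj => hA' j (by simpa using hj))
      hinv e q (h1 e)
  apply MvPolynomial.funext
  intro y
  rw [zero_on_of_van _ q le_rfl h2 y (fun i hi => absurd (Set.mem_univ i) hi), map_zero]

end Pool.Agent.Helper5.Orb
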