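import Pool.Agent.Helper5.D4.Jac

/-!
Order of vanishing of a polynomial at a point along a set of coordinates.
-/

namespace Pool.Agent.Helper5.Orb

open MvPolynomial Pool.Agent.Helper5.D4

/-- all iterated derivatives of order at most `e` in the directions `S` vanish at `x` -/
def Van {σ : Type*} (S : Set σ) (x : σ → ℚ) : ℕ → MvPolynomial σ ℚ → Prop
  | 0, F => eval x F = 0
  | e + 1, F => eval x F = 0 ∧ ∀ i ∈ S, Van S x e (pderiv i F)

section Basic

variable {σ : Type*} {S : Set σ} {x : σ → ℚ}

theorem Van.ev {e : ℕ} {F : MvPolynomial σ ℚ} (h : Van S x e F) : eval x F = 0 := by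
  cases e with
  | zero => exact h
  | succ e => exact h.1

theorem Van.zero (e : ℕ) : Van S x e (0 : MvPolynomial σ ℚ) := by
  induction e with
  | zero => simp [Van]
  | succ e ih => exact ⟨by simp, fun i _ => by rw [map_zero]; exact ih⟩

theorem Van.add {e : ℕ} : ∀ {F G : MvPolynomial σ ℚ}, Van S x e F → Van S x e G →
    Van S x e (F + G) := by
  induction e with
  | zero =>
    intro F G h1 h2
    simp only [Van] at *
    rw [map_add, h1, h2, add_zero]
  | succ e ih =>
    intro F G h1 h2
    refine ⟨by rw [map_add, h1.1, h2.1, add_zero], fun i hi => ?_⟩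
    rw [map_add]
    exact ih (h1.2 i hi) (h2.2 i hi)

theorem Van.mono1 {e : ℕ} : ∀ {F : MvPolynomial σ ℚ}, Van S x (e + 1) F → Van S x e F := by
  induction e with
  | zero => intro F h; exact h.1
  | succ e ih => intro F h; exact ⟨h.1, fun i hi => ih (h.2 i hi)⟩

theorem Van.mono {e e' : ℕ} (h : e ≤ e') {F : MvPolynomial σ ℚ} (hF : Van S x e' F) :
    Van S x e F := by
  induction e', h using Nat.le_induction with
  | base => exact hF
  | succ e' _ ih => exact ih hF.mono1

theorem Van.mul {e : ℕ} : ∀ {F : MvPolynomial σ ℚ} (A : MvPolynomial σ ℚ), Van S x e F →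
    Van S x e (A * F) := by
  induction e with
  | zero =>
    intro F A h
    simp only [Van] at *
    rw [map_mul, h, mul_zero]
  | succ e ih =>
    intro F A h
    refine ⟨by rw [map_mul, h.1, mul_zero], fun i hi => ?_⟩
    rw [pderiv_mul]
    exact (ih _ h.mono1).add (ih _ (h.2 i hi))

theorem Van.neg {e : ℕ} {F : MvPolynomial σ ℚ} (h : Van S x e F) : Van S x e (-F) := by
  have := h.mul (-1)
  rwa [neg_one_mul] at this

theorem Van.sum {ι : Type*} {e : ℕ} (s : Finset ι) (F : ι → MvPolynomial σ ℚ)
    (h : ∀ i ∈ s, Van S x e (F i)) : Van S x e (∑ i ∈ s, F i) := by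
  classical
  induction s using Finset.induction_on with
  | empty => rw [Finset.sum_empty]; exact Van.zero e
  | insert a s ha ih =>
    rw [Finset.sum_insert ha]
    exact (h a (by simp)).add (ih fun i hi => h i (by simp [hi]))

theorem Van.cancel {e : ℕ} : ∀ {F : MvPolynomial σ ℚ} (A : MvPolynomial σ ℚ), Van S x e (A * F) →
    eval x A ≠ 0 → Van S x e F := by
  induction e with
  | zero =>
    intro F A h hA
    simp only [Van] at *
    rw [map_mul] at h
    exact (mul_eq_zero.mp h).resolve_left hA
  | succ e ih =>
    intro F A h hA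
    have hF : Van S x e F := ih A h.mono1 hA
    refine ⟨hF.ev, fun i hi => ?_⟩
    have h1 := h.2 i hi
    rw [pderiv_mul] at h1
    have h2 := h1.add (hF.mul (pderiv i A)).neg
    have h3 : pderiv i A * F + A * pderiv i F + -(pderiv i A * F) = A * pderiv i F := by ring
    rw [h3] at h2
    exact ih A h2 hA

end Basic

section Line

variable {σ : Type*} [Fintype σ] [DecidableEq σ]

/-- restriction to the line through `y` in direction `i` -/
noncomputable def line (y : σ → ℚ) (i : σ) (F : MvPolynomial σ ℚ) : Polynomial ℚ :=
  aeval (fun j => if j = i then (Polynomial.X : Polynomial ℚ) else Polynomial.C (y j)) F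

theorem eval_line (y : σ → ℚ) (i : σ) (F : MvPolynomial σ ℚ) (t : ℚ) :
    (line y i F).eval t = eval (Function.update y i t) F := by
  unfold line
  rw [aeval_def, ← Polynomial.coe_evalRingHom, ← coe_eval₂Hom, ← RingHom.comp_apply]
  congr 1
  apply MvPolynomial.ringHom_ext
  · intro c; simp
  · intro j
    by_cases h : j = i
    · subst h; simp
    · simp [h]

theorem derivative_line (y : σ → ℚ) (i : σ) (F : MvPolynomial σ ℚ) :
    Polynomial.derivative (line y i F) = line y i (pderiv i F) := by
  have h := chain_rule (Polynomial.derivative' : Derivation ℚ (Polynomial ℚ) (Polynomial ℚ))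
    (fun j => if j = i then (Polynomial.X : Polynomial ℚ) else Polynomial.C (y j)) F
  have h1 : Polynomial.derivative (line y i F) =
      (Polynomial.derivative' : Derivation ℚ (Polynomial ℚ) (Polynomial ℚ)) (line y i F) := rfl
  rw [h1]
  unfold line
  rw [h, Finset.sum_eq_single i]
  · simp
  · intro j _ hj
    simp [hj]
  · intro h; exact absurd (Finset.mem_univ i) h

theorem line_eq_zero (y : σ → ℚ) (i : σ) (F : MvPolynomial σ ℚ)
    (h : ∀ t, eval (Function.update y i t) F = 0) : line y i F = 0 := by
  apply Polynomial.funext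
  intro t
  rw [eval_line, h t, Polynomial.eval_zero]

theorem pderiv_eq_zero_of_line (y : σ → ℚ) (i : σ) (F : MvPolynomial σ ℚ)
    (h : ∀ t, eval (Function.update y i t) F = 0) : eval y (pderiv i F) = 0 := by
  have h1 := line_eq_zero y i F h
  have h2 := derivative_line y i F
  rw [h1, Polynomial.derivative_zero] at h2
  have h3 := eval_line y i (pderiv i F) (y i)
  rw [← h2, Function.update_eq_self, Polynomial.eval_zero] at h3
  exact h3.symm

theorem eval_update_eq_of_pderiv (y : σ → ℚ) (i : σ) (F : MvPolynomial σ ℚ)
    (h : ∀ t, eval (Function.update y i t) (pderiv i F) = 0) (t : ℚ) :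
    eval (Function.update y i t) F = eval y F := by
  have h1 := line_eq_zero y i (pderiv i F) h
  rw [← derivative_line] at h1
  have h2 := Polynomial.natDegree_eq_zero_of_derivative_eq_zero h1
  obtain ⟨c, hc⟩ := Polynomial.natDegree_eq_zero.mp h2
  have h3 := eval_line y i F t
  have h4 := eval_line y i F (y i)
  rw [Function.update_eq_self] at h4
  rw [← h3, ← h4, ← hc, Polynomial.eval_C, Polynomial.eval_C]

variable {S : Set σ} {x : σ → ℚ}

theorem van_of_zero_on (e : ℕ) : ∀ (F : MvPolynomial σ ℚ),
    (∀ y, (∀ i, i ∉ S → y i = x i) → eval y F = 0) → Van S x e F := by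
  induction e with
  | zero => intro F h; exact h x fun _ _ => rfl
  | succ e ih =>
    intro F h
    refine ⟨h x fun _ _ => rfl, fun i hi => ih _ fun y hy => ?_⟩
    apply pderiv_eq_zero_of_line
    intro t
    apply h
    intro j hj
    have hji : j ≠ i := by rintro rfl; exact hj hi
    rw [Function.update_of_ne hji]
    exact hy j hj

theorem exists_near (e : ℕ) : ∀ (F : MvPolynomial σ ℚ), ¬ Van S x e F →
    ∃ (y : σ → ℚ) (T : Finset σ), T.card ≤ e ∧ (∀ i, i ∈ T → i ∈ S) ∧
      (∀ i, i ∉ T → y i = x i) ∧ eval y F ≠ 0 := by
  induction e with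
  | zero => intro F h; exact ⟨x, ∅, by simp, by simp, fun _ _ => rfl, h⟩
  | succ e ih =>
    intro F h
    by_cases h0 : eval x F = 0
    · have h1 : ∃ i ∈ S, ¬ Van S x e (pderiv i F) := by
        by_contra hcon
        push Not at hcon
        exact h ⟨h0, hcon⟩
      obtain ⟨i, hi, hv⟩ := h1
      obtain ⟨y, T, hT, hTS, hy, hne⟩ := ih _ hv
      have h2 : ∃ t, eval (Function.update y i t) F ≠ 0 := by
        by_contra hcon
        push Not at hcon
        exact hne (pderiv_eq_zero_of_line y i F hcon)
      obtain ⟨t, ht⟩ := h2
      refine ⟨Function.update y i t, insert i T, ?_, ?_, ?_, ht⟩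
      · exact (Finset.card_insert_le _ _).trans (by omega)
      · intro j hj
        rw [Finset.mem_insert] at hj
        rcases hj with rfl | hj
        · exact hi
        · exact hTS j hj
      · intro j hj
        rw [Finset.mem_insert, not_or] at hj
        rw [Function.update_of_ne hj.1]
        exact hy j hj.2
    · exact ⟨x, ∅, by simp, by simp, fun _ _ => rfl, h0⟩

theorem zero_on_of_van (d : ℕ) : ∀ (F : MvPolynomial σ ℚ), F.totalDegree ≤ d →
    (∀ e, Van S x e F) → ∀ y, (∀ i, i ∉ S → y i = x i) → eval y F = 0 := by
  induction d with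
  | zero =>
    intro F hd h y _
    have h1 : F.totalDegree = 0 := Nat.le_zero.mp hd
    rw [totalDegree_eq_zero_iff_eq_C] at h1
    have h2 := h 0
    simp only [Van] at h2
    rw [h1, eval_C] at h2 ⊢
    exact h2
  | succ d ih =>
    intro F hd h
    -- all derivatives vanish on the subspace
    have hder : ∀ i ∈ S, ∀ y, (∀ j, j ∉ S → y j = x j) → eval y (pderiv i F) = 0 := by
      intro i hi
      by_cases h0 : pderiv i F = 0
      · intro y _; rw [h0, map_zero]
      · apply ih _ _ fun e => (h (e + 1)).2 i hi
        have := totalDegree_pderiv_lt i F h0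
        omega
    intro y hy
    -- change the coordinates one by one
    have key : ∀ T : Finset σ, (∀ i ∈ T, i ∈ S) →
        eval (fun i => if i ∈ T then y i else x i) F = 0 := by
      intro T
      induction T using Finset.induction_on with
      | empty =>
        intro _
        have h2 := h 0
        simp only [Van] at h2
        simpa using h2
      | insert a T ha ihT =>
        intro hT
        have h1 := ihT fun i hi => hT i (by simp [hi])
        rw [← h1]
        have h2 : (fun i => if i ∈ insert a T then y i else x i) =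
            Function.update (fun i => if i ∈ T then y i else x i) a (y a) := by
          funext i
          by_cases hi : i = a
          · subst hi; simp
          · rw [Function.update_of_ne hi]
            simp [hi]
        rw [h2]
        apply eval_update_eq_of_pderiv
        intro t
        apply hder a (hT a (by simp))
        intro j hj
        have hja : j ≠ a := by rintro rfl; exact hj (hT _ (by simp))
        rw [Function.update_of_ne hja]
        have hjT : j ∉ T := fun h' => hj (hT j (by simp [h']))
        simp [hjT]
    have h3 := key (Finset.univ.filter fun i => y i ≠ x i) (by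
      intro i hi
      by_contra hiS
      rw [Finset.mem_filter] at hi
      exact hi.2 (hy i hiS))
    have h4 : (fun i => if i ∈ (Finset.univ.filter fun i => y i ≠ x i) then y i else x i) = y := by
      funext i
      by_cases hi : y i = x i
      · simp [hi]
      · simp [hi]
    rw [h4] at h3
    exact h3

theorem van_congr {e : ℕ} {F G : MvPolynomial σ ℚ}
    (h : ∀ y, (∀ i, i ∉ S → y i = x i) → eval y F = eval y G) (hF : Van S x e F) :
    Van S x e G := by
  have h1 : Van S x e (G - F) := van_of_zero_on e _ fun y hy => by
    rw [map_sub, h y hy, sub_self]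
  have h2 := h1.add hF
  rwa [sub_add_cancel] at h2

end Line

section Comp

variable {ι β : Type*} [Fintype ι] [DecidableEq ι] [Fintype β] [DecidableEq β]

/-- **Submersions preserve the order of vanishing.** -/
theorem Van.comp (ψ : β → MvPolynomial ι ℚ) (x : ι → ℚ) (T : Set ι) (A' : ι → β → ℚ)
    (hA' : ∀ j, j ∉ T → ∀ i, A' j i = 0)
    (hJ : ∀ i i', ∑ j, eval x (pderiv j (ψ i)) * A' j i' = if i = i' then 1 else 0) (e : ℕ) :
    ∀ Q : MvPolynomial β ℚ, Van T x e (aeval ψ Q) →
      Van Set.univ (fun i => eval x (ψ i)) e Q := by
  classical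
  have hev : ∀ Q : MvPolynomial β ℚ, eval x (aeval ψ Q) = eval (fun i => eval x (ψ i)) Q := by
    intro Q
    rw [aeval_def, ← coe_eval₂Hom, ← RingHom.comp_apply]
    congr 1
    apply MvPolynomial.ringHom_ext
    · intro c; simp
    · intro j; simp
  induction e with
  | zero =>
    intro Q h
    simp only [Van] at h ⊢
    rw [← hev]; exact h
  | succ e ih =>
    intro Q h
    refine ⟨by rw [← hev]; exact h.1, fun i _ => ih _ ?_⟩
    set v : β → MvPolynomial ι ℚ := fun i => aeval ψ (pderiv i Q) with hv
    set P : Matrix β β (MvPolynomial ι ℚ) :=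
      Matrix.of (fun i i' => ∑ j, C (A' j i') * pderiv j (ψ i)) with hP
    -- the products `v P` vanish to order `e`
    have h1 : ∀ i', Van T x e ((Matrix.vecMul v P) i') := by
      intro i'
      have h2 : (Matrix.vecMul v P) i' = ∑ j, C (A' j i') * pderiv j (aeval ψ Q) := by
        have h3 : ∀ j, pderiv j (aeval ψ Q) = ∑ i, v i * pderiv j (ψ i) := by
          intro j
          exact chain_rule (pderiv j : Derivation ℚ (MvPolynomial ι ℚ) (MvPolynomial ι ℚ)) ψ Q
        simp only [h3, Matrix.vecMul, dotProduct, hP, Matrix.of_apply, Finset.mul_sum]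
        rw [Finset.sum_comm]
        refine Finset.sum_congr rfl fun j _ => Finset.sum_congr rfl fun i _ => ?_
        ring
      rw [h2]
      apply Van.sum
      intro j _
      by_cases hj : j ∈ T
      · exact (h.2 j hj).mul _
      · rw [hA' j hj i', C_0, zero_mul]
        exact Van.zero e
    have h2 : P.det * v i = ∑ i', P.adjugate i' i * (Matrix.vecMul v P) i' := by
      have h3 : Matrix.vecMul (Matrix.vecMul v P) P.adjugate = P.det • v := by
        rw [Matrix.vecMul_vecMul, Matrix.mul_adjugate, Matrix.vecMul_smul, Matrix.vecMul_one]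
      have h4 := congrFun h3 i
      rw [Pi.smul_apply, smul_eq_mul] at h4
      rw [← h4]
      simp only [Matrix.vecMul, dotProduct]
      refine Finset.sum_congr rfl fun i' _ => ?_
      ring
    have h3 : Van T x e (P.det * v i) := by
      rw [h2]
      exact Van.sum _ _ fun i' _ => (h1 i').mul _
    refine Van.cancel P.det h3 ?_
    have h4 : eval x P.det = 1 := by
      rw [RingHom.map_det]
      have h5 : (eval x).mapMatrix P = 1 := by
        ext i i'
        rw [RingHom.mapMatrix_apply, Matrix.map_apply, hP, Matrix.of_apply, map_sum,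
          Matrix.one_apply, ← hJ i i']
        refine Finset.sum_congr rfl fun j _ => ?_
        rw [map_mul, eval_C, mul_comm]
      rw [h5, Matrix.det_one]
    rw [h4]
    exact one_ne_zero

end Comp

end Pool.Agent.Helper5.Orb
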